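import Pool.Agent.helper11.RPQ.SpecG
import Pool.Agent.helper28.QU.TTT
import Pool.Agent.helper62.QU.INV
import Pool.Agent.helper6.QU.CVB

/-!
# rpq:BMP: existence of nets of bump functions
-/

set_option autoImplicit false

open scoped MatrixGroups ContDiff Topology UpperHalfPlane ComplexConjugate
open UpperHalfPlane MeasureTheory Filter Set

namespace Pool.Agent.RPQ

open Pool.Agent.RS
open Pool.Agent.MS (BA BB st pf gk Dk amk)

noncomputable section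

/-! ## Packing -/

theorem BMP_cosh_low (d : ℝ) (hd : 0 ≤ d) : d ^ 2 / 2 ≤ Real.cosh d - 1 := by
  have h1 : Real.cosh d = 2 * Real.sinh (d / 2) ^ 2 + 1 := by
    have h2 := Real.cosh_two_mul (d / 2)
    have h3 := Real.cosh_sq (d / 2)
    rw [mul_div_cancel₀ d two_ne_zero] at h2
    rw [h2, h3]
    ring
  have h2 : d / 2 ≤ Real.sinh (d / 2) := Real.self_le_sinh_iff.2 (by linarith)
  rw [h1]
  nlinarith

theorem BMP_cosh_up (r : ℝ) (hr0 : 0 ≤ r) (hr : r ≤ 1 / 8) : Real.cosh r - 1 ≤ r ^ 2 := by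
  have h1 := Real.cosh_le_exp_half_sq r
  have h2 : Real.exp (r ^ 2 / 2) ≤ 1 + r ^ 2 := by
    have h3 := Real.add_one_le_exp (-(r ^ 2 / 2))
    have h4 : Real.exp (r ^ 2 / 2) * Real.exp (-(r ^ 2 / 2)) = 1 := by
      rw [← Real.exp_add, add_neg_cancel, Real.exp_zero]
    have h5 : 0 < Real.exp (r ^ 2 / 2) := Real.exp_pos _
    have h6 : 0 ≤ r ^ 2 := sq_nonneg r
    have h7 : r ^ 2 ≤ 1 / 64 := by nlinarith
    have h8 : Real.exp (r ^ 2 / 2) * (1 - r ^ 2 / 2) ≤ 1 := by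
      rw [← h4]
      exact mul_le_mul_of_nonneg_left (by linarith) h5.le
    have h9 : 1 ≤ (1 + r ^ 2) * (1 - r ^ 2 / 2) := by nlinarith
    by_contra hcon
    rw [not_le] at hcon
    have h10 : (1 + r ^ 2) * (1 - r ^ 2 / 2) < Real.exp (r ^ 2 / 2) * (1 - r ^ 2 / 2) :=
      mul_lt_mul_of_pos_right hcon (by linarith)
    linarith
  linarith

/-- the coordinates of `q` relative to `z` -/
def BMP_u (z q : ℍ) : ℝ := (q.re - z.re) / z.im

def BMP_v (z q : ℍ) : ℝ := q.im / z.im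

theorem BMP_tt (z q q' : ℍ) : QU.tt q q' =
    ((BMP_u z q - BMP_u z q') ^ 2 + (BMP_v z q - BMP_v z q') ^ 2) / (2 * BMP_v z q * BMP_v z q') := by
  have hz := z.im_pos
  have hq := q.im_pos
  have hq' := q'.im_pos
  unfold QU.tt BMP_u BMP_v
  have h1 : ‖((q : ℂ) - (q' : ℂ))‖ ^ 2 = (q.re - q'.re) ^ 2 + (q.im - q'.im) ^ 2 := by
    rw [← Complex.normSq_eq_norm_sq, Complex.normSq_apply]
    simp only [Complex.sub_re, Complex.sub_im, UpperHalfPlane.coe_re, UpperHalfPlane.coe_im]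
    ring
  rw [h1]
  field_simp
  ring

theorem BMP_self (z : ℍ) : BMP_u z z = 0 ∧ BMP_v z z = 1 := by
  have hz := z.im_pos
  unfold BMP_u BMP_v
  constructor
  · rw [sub_self, zero_div]
  · rw [div_self hz.ne']

theorem BMP_coord (ρ : ℝ) (hρ0 : 0 < ρ) (hρ : ρ ≤ 1 / 8) (z q : ℍ) (h : dist z q ≤ ρ) :
    |BMP_u z q| ≤ 2 * ρ ∧ |BMP_v z q - 1| ≤ 2 * ρ := by
  have hT := QU.TTT.1 z q
  have h1 : Real.cosh (dist z q) ≤ Real.cosh ρ := by
    rw [Real.cosh_le_cosh, abs_of_nonneg dist_nonneg, abs_of_pos hρ0]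
    exact h
  have h2 := BMP_cosh_up ρ hρ0.le hρ
  have h3 : QU.tt z q ≤ ρ ^ 2 := by rw [hT]; linarith
  rw [BMP_tt z z q, (BMP_self z).1, (BMP_self z).2] at h3
  have hv : 0 < BMP_v z q := div_pos q.im_pos z.im_pos
  rw [div_le_iff₀ (by positivity)] at h3
  generalize BMP_u z q = u at h3 ⊢
  generalize BMP_v z q = v at h3 hv ⊢
  have hρ2 : ρ ^ 2 ≤ 1 / 64 := by nlinarith
  have hρ20 : 0 < ρ ^ 2 := by positivity
  have hv2 : v ≤ 2 := by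
    by_contra hcon
    rw [not_le] at hcon
    nlinarith [sq_nonneg (0 - u)]
  have h4 : u ^ 2 + (v - 1) ^ 2 ≤ (2 * ρ) ^ 2 := by nlinarith
  constructor
  · exact abs_le_of_sq_le_sq (by nlinarith [sq_nonneg (v - 1)]) (by linarith)
  · exact abs_le_of_sq_le_sq (by nlinarith [sq_nonneg u]) (by linarith)

/-- two points in the same cell are close -/
theorem BMP_close (ρ : ℝ) (hρ0 : 0 < ρ) (hρ : ρ ≤ 1 / 8) (z q q' : ℍ) (h : dist z q ≤ ρ) (h' : dist z q' ≤ ρ)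
    (hu : |BMP_u z q - BMP_u z q'| ≤ ρ / 16) (hv : |BMP_v z q - BMP_v z q'| ≤ ρ / 16) : dist q q' < ρ / 8 := by
  have hT := QU.TTT.1 q q'
  have h1 := BMP_cosh_low (dist q q') dist_nonneg
  have hc := (BMP_coord ρ hρ0 hρ z q h).2
  have hc' := (BMP_coord ρ hρ0 hρ z q' h').2
  rw [← hT, BMP_tt z q q'] at h1
  generalize BMP_u z q - BMP_u z q' = a at *
  generalize BMP_v z q = v at *
  generalize BMP_v z q' = v' at *
  rw [abs_le] at hc hc'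
  have hv1 : 3 / 4 ≤ v := by linarith [hc.1]
  have hv1' : 3 / 4 ≤ v' := by linarith [hc'.1]
  have ha : a ^ 2 ≤ (ρ / 16) ^ 2 := sq_le_sq' (abs_le.1 hu).1 (abs_le.1 hu).2
  have hb : (v - v') ^ 2 ≤ (ρ / 16) ^ 2 := sq_le_sq' (abs_le.1 hv).1 (abs_le.1 hv).2
  have h2 : (a ^ 2 + (v - v') ^ 2) / (2 * v * v') ≤ ρ ^ 2 / 144 := by
    rw [div_le_div_iff₀ (by positivity) (by norm_num)]
    have h3 : 9 / 16 ≤ v * v' := by nlinarith
    have h4 : 0 < ρ ^ 2 := by positivity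
    nlinarith
  have h3 : dist q q' ^ 2 < (ρ / 8) ^ 2 := by
    have h4 : 0 < ρ ^ 2 := by positivity
    nlinarith
  exact lt_of_pow_lt_pow_left₀ 2 (by positivity) h3

theorem BMP_pack {ι : Type} (ρ : ℝ) (hρ0 : 0 < ρ) (hρ : ρ ≤ 1 / 8) (z : ℍ) (S : Finset ι) (q : ι → ℍ)
    (hq : ∀ i ∈ S, dist z (q i) ≤ ρ) (hsep : ∀ i ∈ S, ∀ j ∈ S, i ≠ j → ρ / 8 < dist (q i) (q j)) :
    S.card ≤ 4225 := by
  classical
  have h16 : 0 < 16 / ρ := by positivity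
  have hmul : ∀ a b : ℝ, |a * (16 / ρ) - b * (16 / ρ)| < 1 → |a - b| ≤ ρ / 16 := by
    intro a b h
    rw [← sub_mul, abs_mul, abs_of_pos h16] at h
    have h1 : |a - b| * (16 / ρ) * (ρ / 16) = |a - b| := by field_simp
    rw [← h1]
    calc |a - b| * (16 / ρ) * (ρ / 16) ≤ 1 * (ρ / 16) := mul_le_mul_of_nonneg_right h.le (by positivity)
      _ = ρ / 16 := one_mul _
  have hbd : ∀ a : ℝ, |a| ≤ 2 * ρ → ⌊a * (16 / ρ)⌋ ∈ Finset.Icc (-32 : ℤ) 32 := by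
    intro a ha
    have h1 : |a * (16 / ρ)| ≤ 32 := by
      rw [abs_mul, abs_of_pos h16]
      calc |a| * (16 / ρ) ≤ 2 * ρ * (16 / ρ) := mul_le_mul_of_nonneg_right ha h16.le
        _ = 32 := by field_simp; norm_num
    rw [abs_le] at h1
    rw [Finset.mem_Icc]
    constructor
    · rw [Int.le_floor]
      push_cast
      linarith [h1.1]
    · have := Int.floor_le (a * (16 / ρ))
      have h3 : ((⌊a * (16 / ρ)⌋ : ℤ) : ℝ) ≤ ((32 : ℤ) : ℝ) := by push_cast; linarith [h1.2]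
      exact_mod_cast h3
  obtain ⟨B, hB, hBc⟩ : ∃ B : Finset ℤ, (∀ a : ℝ, |a| ≤ 2 * ρ → ⌊a * (16 / ρ)⌋ ∈ B) ∧ B.card = 65 :=
    ⟨Finset.Icc (-32 : ℤ) 32, hbd, by rw [Int.card_Icc]; rfl⟩
  have hle : S.card ≤ (B ×ˢ B).card := by
    refine Finset.card_le_card_of_injOn (fun i => (⌊BMP_u z (q i) * (16 / ρ)⌋, ⌊(BMP_v z (q i) - 1) * (16 / ρ)⌋)) ?_ ?_
    · intro i hi
      have h1 := BMP_coord ρ hρ0 hρ z (q i) (hq i hi)
      exact Finset.mem_coe.2 (Finset.mem_product.2 ⟨hB _ h1.1, hB _ h1.2⟩)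
    · intro i hi j hj hij
      by_contra hne
      have h1 := Prod.ext_iff.1 hij
      have h2 := hmul _ _ (Int.abs_sub_lt_one_of_floor_eq_floor h1.1)
      have h3 := hmul _ _ (Int.abs_sub_lt_one_of_floor_eq_floor h1.2)
      rw [sub_sub_sub_cancel_right] at h3
      have h4 := BMP_close ρ hρ0 hρ z (q i) (q j) (hq i hi) (hq j hj) h2 h3
      exact absurd (hsep i hi j hj hne) (not_lt.2 h4.le)
  refine hle.trans (le_of_eq ?_)
  rw [Finset.card_product, hBc]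

/-! ## Separated sets -/

theorem BMP_dist (Γ : Subgroup SL(2, ℝ)) (γ : Γ) (z w : ℍ) :
    dist ((γ : SL(2, ℝ)) • z) ((γ : SL(2, ℝ)) • w) = dist z w := dist_smul _ _ _

theorem BMP_net (Γ : Subgroup SL(2, ℝ)) (hΓ : QU.SurfaceGroup Γ) (r : ℝ) (hr : 0 < r) :
    ∃ S : Finset ℍ, (∀ p ∈ S, ∀ q ∈ S, p ≠ q → ∀ γ : Γ, r < dist p ((γ : SL(2, ℝ)) • q)) ∧
      ∀ z : ℍ, ∃ p ∈ S, ∃ γ : Γ, dist z ((γ : SL(2, ℝ)) • p) ≤ 2 * r := by
  classical
  obtain ⟨K, hK, hcov⟩ := hΓ.cocompact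
  obtain ⟨T, hTK, hT⟩ := hK.elim_nhds_subcover (fun z => Metric.ball z r) (fun z _ => Metric.ball_mem_nhds z hr)
  obtain ⟨S, hS, hmax⟩ := Finset.exists_max_image
    (T.powerset.filter fun S => ∀ p ∈ S, ∀ q ∈ S, p ≠ q → ∀ γ : Γ, r < dist p ((γ : SL(2, ℝ)) • q)) Finset.card
    ⟨∅, Finset.mem_filter.2 ⟨Finset.empty_mem_powerset T, fun p hp => absurd hp (Finset.notMem_empty p)⟩⟩
  rw [Finset.mem_filter, Finset.mem_powerset] at hS
  refine ⟨S, hS.2, fun z => ?_⟩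
  obtain ⟨γ, hγ⟩ := hcov z
  obtain ⟨t, htT, ht⟩ := Set.mem_iUnion₂.1 (hT hγ)
  rw [Metric.mem_ball] at ht
  -- `t` is close to the orbit of a point of `S`
  have hclose : ∃ p ∈ S, ∃ γ' : Γ, dist t ((γ' : SL(2, ℝ)) • p) ≤ r := by
    by_contra hcon
    push Not at hcon
    have htS : t ∉ S := by
      intro h
      have h1 := hcon t h 1
      rw [OneMemClass.coe_one, one_smul, dist_self] at h1
      linarith
    have h1 : insert t S ∈ T.powerset.filter fun S => ∀ p ∈ S, ∀ q ∈ S, p ≠ q → ∀ γ : Γ, r < dist p ((γ : SL(2, ℝ)) • q) := by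
      rw [Finset.mem_filter, Finset.mem_powerset]
      refine ⟨Finset.insert_subset htT hS.1, ?_⟩
      intro p hp q hq hpq γ'
      rcases Finset.mem_insert.1 hp with h1 | hp1
      · rcases Finset.mem_insert.1 hq with h2 | hq1
        · exact absurd (h1.trans h2.symm) hpq
        · rw [h1]; exact hcon q hq1 γ'
      · rcases Finset.mem_insert.1 hq with h3 | hq1
        · have h2 := hcon p hp1 γ'⁻¹
          rw [← BMP_dist Γ γ', ← mul_smul, InvMemClass.coe_inv, mul_inv_cancel, one_smul, dist_comm] at h2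
          rw [h3]
          exact h2
        · exact hS.2 p hp1 q hq1 hpq γ'
    have h2 := hmax _ h1
    rw [Finset.card_insert_of_notMem htS] at h2
    omega
  obtain ⟨p, hp, γ', hγ'⟩ := hclose
  refine ⟨p, hp, γ⁻¹ * γ', ?_⟩
  have h1 : dist z (((γ⁻¹ * γ' : Γ) : SL(2, ℝ)) • p) = dist ((γ : SL(2, ℝ)) • z) ((γ' : SL(2, ℝ)) • p) := by
    rw [← BMP_dist Γ γ, ← mul_smul]
    refine congrArg (dist _) (congrArg (· • p) ?_)
    push_cast
    rw [mul_inv_cancel_left]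
  rw [h1]
  calc dist ((γ : SL(2, ℝ)) • z) ((γ' : SL(2, ℝ)) • p) ≤ dist ((γ : SL(2, ℝ)) • z) t + dist t ((γ' : SL(2, ℝ)) • p) := dist_triangle _ _ _
    _ ≤ r + r := add_le_add ht.le hγ'
    _ = 2 * r := by ring

/-! ## The functions -/

/-- the orbit of `p` -/
def BMP_O (Γ : Subgroup SL(2, ℝ)) (p : ℍ) : Set ℍ := Set.range fun γ : Γ => (γ : SL(2, ℝ)) • p

/-- the function before mollification -/
def BMP_f (Γ : Subgroup SL(2, ℝ)) (ρ : ℝ) (p z : ℍ) : ℝ :=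
  max 0 (min 1 (20 * (4 / 5 - Metric.infDist z (BMP_O Γ p) / ρ)))

theorem BMP_O_ne (Γ : Subgroup SL(2, ℝ)) (p : ℍ) : (BMP_O Γ p).Nonempty := Set.range_nonempty _

theorem BMP_O_inv (Γ : Subgroup SL(2, ℝ)) (p : ℍ) (γ : Γ) (z : ℍ) :
    Metric.infDist ((γ : SL(2, ℝ)) • z) (BMP_O Γ p) = Metric.infDist z (BMP_O Γ p) := by
  have h1 : (fun w : ℍ => (γ : SL(2, ℝ)) • w) '' BMP_O Γ p = BMP_O Γ p := by
    ext w
    constructor
    · rintro ⟨_, ⟨γ', rfl⟩, rfl⟩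
      refine ⟨γ * γ', ?_⟩
      show ((γ * γ' : Γ) : SL(2, ℝ)) • p = (γ : SL(2, ℝ)) • ((γ' : SL(2, ℝ)) • p)
      rw [← mul_smul]
      rfl
    · rintro ⟨γ', rfl⟩
      refine ⟨((γ⁻¹ * γ' : Γ) : SL(2, ℝ)) • p, ⟨γ⁻¹ * γ', rfl⟩, ?_⟩
      show (γ : SL(2, ℝ)) • (((γ⁻¹ * γ' : Γ) : SL(2, ℝ)) • p) = (γ' : SL(2, ℝ)) • p
      rw [← mul_smul]
      refine congrArg (· • p) ?_
      push_cast
      rw [mul_inv_cancel_left]
  have h2 : Isometry (fun w : ℍ => (γ : SL(2, ℝ)) • w) := isometry_smul ℍ (γ : SL(2, ℝ))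
  have h3 := Metric.infDist_image (x := z) (t := BMP_O Γ p) h2
  rw [h1] at h3
  exact h3

theorem BMP_f_cont (Γ : Subgroup SL(2, ℝ)) (ρ : ℝ) (p : ℍ) : Continuous (BMP_f Γ ρ p) := by
  unfold BMP_f
  exact continuous_const.max (continuous_const.min (continuous_const.mul
    (continuous_const.sub ((Metric.continuous_infDist_pt _).div_const _))))

theorem BMP_f_inv (Γ : Subgroup SL(2, ℝ)) (ρ : ℝ) (p : ℍ) : QU.Inv Γ (BMP_f Γ ρ p) := by
  refine ⟨BMP_f_cont Γ ρ p, fun γ z => ?_⟩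
  unfold BMP_f
  have h : Metric.infDist (γ • z) (BMP_O Γ p) = Metric.infDist z (BMP_O Γ p) := BMP_O_inv Γ p γ z
  rw [h]

theorem BMP_f_bd (Γ : Subgroup SL(2, ℝ)) (ρ : ℝ) (p z : ℍ) : 0 ≤ BMP_f Γ ρ p z ∧ BMP_f Γ ρ p z ≤ 1 :=
  ⟨le_max_left _ _, max_le zero_le_one (min_le_left _ _)⟩

theorem BMP_f_one (Γ : Subgroup SL(2, ℝ)) (ρ : ℝ) (hρ : 0 < ρ) (p z : ℍ) (γ : Γ)
    (h : dist z ((γ : SL(2, ℝ)) • p) ≤ 7 / 10 * ρ) : BMP_f Γ ρ p z = 1 := by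
  unfold BMP_f
  have h1 : Metric.infDist z (BMP_O Γ p) ≤ 7 / 10 * ρ := 
    (Metric.infDist_le_dist_of_mem (show (γ : SL(2, ℝ)) • p ∈ BMP_O Γ p from ⟨γ, rfl⟩)).trans h
  have h2 : Metric.infDist z (BMP_O Γ p) / ρ ≤ 7 / 10 := by
    rw [div_le_iff₀ hρ]
    exact h1
  rw [min_eq_left (by linarith), max_eq_right zero_le_one]

theorem BMP_f_supp (Γ : Subgroup SL(2, ℝ)) (ρ : ℝ) (hρ : 0 < ρ) (p z : ℍ) (h : BMP_f Γ ρ p z ≠ 0) :
    ∃ γ : Γ, dist z ((γ : SL(2, ℝ)) • p) < 4 / 5 * ρ := by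
  have h1 : Metric.infDist z (BMP_O Γ p) < 4 / 5 * ρ := by
    by_contra hcon
    rw [not_lt] at hcon
    apply h
    unfold BMP_f
    have h2 : 4 / 5 ≤ Metric.infDist z (BMP_O Γ p) / ρ := by
      rw [le_div_iff₀ hρ]
      exact hcon
    exact max_eq_left ((min_le_right _ _).trans (by linarith))
  obtain ⟨w, ⟨γ, rfl⟩, hw⟩ := (Metric.infDist_lt_iff (BMP_O_ne Γ p)).1 h1
  exact ⟨γ, hw⟩

/-- the support of the mollifier -/
theorem BMP_mo_supp (κ : ℝ → ℝ) (hκ : MO κ) (ρ : ℝ) (hρ : 0 < ρ) (z w : ℍ) (h : mo κ ρ (QU.tt z w) ≠ 0) :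
    dist z w ≤ ρ / 5 := by
  have h1 : QU.tt z w / ρ ^ 2 < 1 / 64 := by
    by_contra hcon
    rw [not_lt] at hcon
    apply h
    unfold mo
    rw [hκ.supp _ hcon, zero_div]
  rw [div_lt_iff₀ (by positivity), QU.TTT.1] at h1
  have h2 := BMP_cosh_low (dist z w) dist_nonneg
  have h3 : dist z w ^ 2 ≤ (ρ / 5) ^ 2 := by nlinarith
  exact (pow_le_pow_iff_left₀ dist_nonneg (by positivity) two_ne_zero).1 h3

theorem BMP_mo_nonneg (κ : ℝ → ℝ) (hκ : MO κ) (ρ t : ℝ) : 0 ≤ mo κ ρ t := by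
  unfold mo
  exact div_nonneg (hκ.nonneg _) (sq_nonneg ρ)

theorem BMP_sum (κ' : ℝ → ℝ) (hκ' : QU.RK κ') {ι : Type} (s : Finset ι) (c : ι → ℝ) (f : ι → ℍ → ℝ)
    (hf : ∀ i, Continuous (f i)) (z : ℍ) :
    QU.conv κ' (fun w => ∑ i ∈ s, c i * f i w) z = ∑ i ∈ s, c i * QU.conv κ' (f i) z := by
  unfold QU.conv
  have h1 : ∀ w : ℍ, κ' (QU.tt z w) • ∑ i ∈ s, c i * f i w = ∑ i ∈ s, c i * (κ' (QU.tt z w) • f i w) := by
    intro w
    rw [smul_eq_mul, Finset.mul_sum]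
    refine Finset.sum_congr rfl fun i _ => ?_
    rw [smul_eq_mul]
    ring
  simp only [h1]
  rw [integral_finsetSum _ fun i _ => (QU.CVB_int QU.TTT hκ' (hf i) z).const_mul (c i)]
  refine Finset.sum_congr rfl fun i _ => ?_
  rw [integral_const_mul]

theorem BMP_proof (hMOM : MOM_stmt) (hCKB : CKB_stmt) (hINJ : INJ_stmt) : BMP_stmt := by
  have _ := hINJ
  classical
  intro Γ κ hΓ hκ
  refine ⟨4225, 1 / 8, by norm_num, by norm_num, le_rfl, fun ρ hρ0 hρ => ?_⟩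
  obtain ⟨S, hS1, hS2⟩ := BMP_net Γ hΓ (ρ / 8) (by positivity)
  obtain ⟨hRK, hmass, hbound⟩ := hMOM.2 κ hκ ρ hρ0
  have hsm := (hCKB κ hκ).1
  -- enumeration
  obtain ⟨J, e⟩ : ∃ J : ℕ, Nonempty (Fin J ≃ S) := ⟨S.card, ⟨S.equivFin.symm⟩⟩
  obtain ⟨e⟩ := e
  have hsep : ∀ i j : Fin J, i ≠ j → ∀ γ : Γ, ρ / 8 < dist ((e i : ℍ)) ((γ : SL(2, ℝ)) • (e j : ℍ)) := by
    intro i j hij γ
    exact hS1 _ (e i).2 _ (e j).2 (fun h => hij (e.injective (Subtype.ext h))) γ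
  refine ⟨J, fun j => (e j : ℍ), fun j => QU.conv (mo κ ρ) (BMP_f Γ ρ (e j : ℍ)), ?_⟩
  have hnn : ∀ (f : ℍ → ℝ), (∀ w, 0 ≤ f w) → ∀ z, 0 ≤ QU.conv (mo κ ρ) f z := by
    intro f hf z
    unfold QU.conv
    refine integral_nonneg fun w => ?_
    exact smul_nonneg (BMP_mo_nonneg κ hκ ρ _) (hf w)
  constructor
  · -- cover
    intro z
    obtain ⟨p, hp, γ, hγ⟩ := hS2 z
    refine ⟨e.symm ⟨p, hp⟩, γ, ?_⟩
    show dist z ((γ : SL(2, ℝ)) • ((e (e.symm ⟨p, hp⟩) : S) : ℍ)) ≤ ρ / 4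
    rw [e.apply_symm_apply]
    linarith
  · -- inv
    intro j
    have hf := BMP_f_inv Γ ρ (e j : ℍ)
    refine ⟨QU.CVB_6 QU.TTT hRK hf.1, fun γ z => ?_⟩
    have h1 := QU.CVB_1 QU.TTT QU.INV (mo κ ρ) (BMP_f Γ ρ (e j : ℍ)) (γ : SL(2, ℝ)) z
    have h2 : (fun w => BMP_f Γ ρ (e j : ℍ) ((γ : SL(2, ℝ)) • w)) = BMP_f Γ ρ (e j : ℍ) := funext fun w => hf.2 γ w
    rw [h2] at h1
    exact h1.symm
  · -- smooth
    intro j
    exact hsm ρ _ hρ0 (BMP_f_cont Γ ρ _)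
  · -- bd
    intro j z
    refine ⟨hnn _ (fun w => (BMP_f_bd Γ ρ _ w).1) z, ?_⟩
    have h1 := hbound (BMP_f Γ ρ (e j : ℍ)) 1 (BMP_f_cont Γ ρ _) (fun w => by
      rw [abs_of_nonneg (BMP_f_bd Γ ρ _ w).1]; exact (BMP_f_bd Γ ρ _ w).2) z
    exact (le_abs_self _).trans h1
  · -- one
    intro j z γ hz
    show QU.conv (mo κ ρ) (BMP_f Γ ρ (e j : ℍ)) z = 1
    rw [← hmass z]
    unfold QU.conv
    refine integral_congr_ae (Filter.Eventually.of_forall fun w => ?_)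
    show mo κ ρ (QU.tt z w) • BMP_f Γ ρ (e j : ℍ) w = mo κ ρ (QU.tt z w)
    by_cases h0 : mo κ ρ (QU.tt z w) = 0
    · rw [h0, zero_smul]
    · have h1 := BMP_mo_supp κ hκ ρ hρ0 z w h0
      have h2 : dist w ((γ : SL(2, ℝ)) • (e j : ℍ)) ≤ 7 / 10 * ρ := by
        have h3 := dist_triangle w z ((γ : SL(2, ℝ)) • (e j : ℍ))
        rw [dist_comm w z] at h3
        linarith
      rw [BMP_f_one Γ ρ hρ0 _ w γ h2, smul_eq_mul, mul_one]
  · -- supp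
    intro j z hz
    obtain ⟨w, hw⟩ : ∃ w : ℍ, mo κ ρ (QU.tt z w) • BMP_f Γ ρ (e j : ℍ) w ≠ 0 := by
      by_contra hcon
      push Not at hcon
      apply hz
      show QU.conv (mo κ ρ) (BMP_f Γ ρ (e j : ℍ)) z = 0
      unfold QU.conv
      simp only [hcon, integral_zero]
    rw [smul_eq_mul] at hw
    have h1 := BMP_mo_supp κ hκ ρ hρ0 z w (left_ne_zero_of_mul hw)
    obtain ⟨γ, hγ⟩ := BMP_f_supp Γ ρ hρ0 _ w (right_ne_zero_of_mul hw)
    refine ⟨γ, ?_⟩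
    have h3 := dist_triangle z w ((γ : SL(2, ℝ)) • (e j : ℍ))
    show dist z ((γ : SL(2, ℝ)) • (e j : ℍ)) ≤ ρ
    linarith
  · -- mol
    intro ξ hξ
    refine ⟨fun w => ∑ j, ξ j * BMP_f Γ ρ (e j : ℍ) w, ⟨?_, ?_⟩, ?_, ?_⟩
    · exact continuous_finsetSum _ fun j _ => continuous_const.mul (BMP_f_cont Γ ρ _)
    · intro γ z
      exact Finset.sum_congr rfl fun j _ => by rw [(BMP_f_inv Γ ρ (e j : ℍ)).2 γ z]
    · intro z
      have h1 : |∑ j, ξ j * BMP_f Γ ρ (e j : ℍ) z| ≤ ∑ j, (if BMP_f Γ ρ (e j : ℍ) z ≠ 0 then (1 : ℝ) else 0) := by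
        refine (Finset.abs_sum_le_sum_abs _ _).trans (Finset.sum_le_sum fun j _ => ?_)
        have h2 := BMP_f_bd Γ ρ (e j : ℍ) z
        by_cases h0 : BMP_f Γ ρ (e j : ℍ) z = 0
        · rw [h0, mul_zero, abs_zero, if_neg (by simp)]
        · rw [if_pos h0, abs_mul, abs_of_nonneg h2.1]
          exact mul_le_one₀ (hξ j) h2.1 h2.2
      refine h1.trans ?_
      rw [Finset.sum_boole]
      have h3 : ∀ j : Fin J, BMP_f Γ ρ (e j : ℍ) z ≠ 0 → ∃ γ : Γ, dist z ((γ : SL(2, ℝ)) • (e j : ℍ)) < 4 / 5 * ρ :=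
        fun j hj => BMP_f_supp Γ ρ hρ0 _ z hj
      choose! g hg using h3
      have h4 : (Finset.univ.filter fun j : Fin J => BMP_f Γ ρ (e j : ℍ) z ≠ 0).card ≤ 4225 := by
        refine BMP_pack ρ hρ0 hρ z _ (fun j => ((g j : Γ) : SL(2, ℝ)) • (e j : ℍ)) ?_ ?_
        · intro j hj
          have := hg j (Finset.mem_filter.1 hj).2
          linarith
        · intro i _ j _ hij
          have h5 := hsep i j hij ((g i)⁻¹ * g j)
          rw [← BMP_dist Γ (g i), ← mul_smul] at h5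
          have h6 : ((g i : Γ) : SL(2, ℝ)) * (((g i)⁻¹ * g j : Γ) : SL(2, ℝ)) = ((g j : Γ) : SL(2, ℝ)) := by
            push_cast
            rw [mul_inv_cancel_left]
          rw [h6] at h5
          exact h5
      exact_mod_cast h4
    · intro z
      exact (BMP_sum (mo κ ρ) hRK Finset.univ ξ (fun j => BMP_f Γ ρ (e j : ℍ)) (fun j => BMP_f_cont Γ ρ _) z).symm

end

end Pool.Agent.RPQ
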