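import Pool.Agent.helper98.RPQ.SpecR
import Pool.Agent.helper62.RS.GLC
import Pool.Agent.helper92.RS.GMG

/-!
# MP_07c750, project RPQ, row EHS: the mean of the square of the Hilbert-Schmidt norm of a word
-/

set_option autoImplicit false

open scoped MatrixGroups ContDiff Topology UpperHalfPlane ComplexConjugate ENNReal
open UpperHalfPlane MeasureTheory Filter Set

namespace Pool.Agent.RPQ

open Pool.Agent.RS
open Pool.Agent.MS (BA BB st pf gk Dk amk)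

/-- Tonelli for three variables -/
theorem EHS_swap {X G : Type} [MeasurableSpace X] [MeasurableSpace G] (P : Measure X) (μ : Measure G) [SFinite P] [SFinite μ]
    (f : X → G → G → ENNReal) (hf : Measurable fun p : X × (G × G) => f p.1 p.2.1 p.2.2) :
    ∫⁻ ξ, ∫⁻ g, ∫⁻ h, f ξ g h ∂μ ∂μ ∂P = ∫⁻ g, ∫⁻ h, ∫⁻ ξ, f ξ g h ∂P ∂μ ∂μ := by
  have h1 : ∫⁻ ξ, ∫⁻ g, ∫⁻ h, f ξ g h ∂μ ∂μ ∂P = ∫⁻ g, ∫⁻ ξ, ∫⁻ h, f ξ g h ∂μ ∂P ∂μ := by
    apply lintegral_lintegral_swap (f := fun ξ g => ∫⁻ h, f ξ g h ∂μ)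
    apply Measurable.aemeasurable
    have h2 : Measurable fun q : (X × G) × G => f q.1.1 q.1.2 q.2 :=
      hf.comp (g := fun p : X × (G × G) => f p.1 p.2.1 p.2.2) (f := fun q : (X × G) × G => (q.1.1, (q.1.2, q.2)))
        ((measurable_fst.comp measurable_fst).prodMk ((measurable_snd.comp measurable_fst).prodMk measurable_snd))
    exact h2.lintegral_prod_right'
  rw [h1]
  refine lintegral_congr fun g => ?_
  apply lintegral_lintegral_swap (f := fun ξ h => f ξ g h)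
  apply Measurable.aemeasurable
  exact hf.comp (g := fun p : X × (G × G) => f p.1 p.2.1 p.2.2) (f := fun q : X × G => (q.1, (g, q.2)))
    (measurable_fst.prodMk (measurable_const.prodMk measurable_snd))

theorem EHS_proof (hSNC : SNC_stmt) (hEH1 : EH1_stmt) (hPIN : PIN_stmt) (hUNL : UNL_stmt) (hWDE : WDE_stmt) : EHS_stmt := by
  intro Γ F J nc K χ κ t u m A l Mx S hΓ hF hχ hu huB huD hA hAΓ hl hm hum hS hMx hSum hK
  have hE := hEH1 Γ F J nc K χ κ t u m A l Mx S hΓ hF hχ hu huB huD hA hAΓ hl hm hum hS hMx hSum hK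
  obtain ⟨-, hcount, -, -, hmeas⟩ := hPIN Γ F J χ κ t u A l hΓ hF hχ hu huB huD hA hAΓ hl
  obtain ⟨hwm, -⟩ := (hWDE m t hm).2 A l hA hl
  have hPJ : IsProbabilityMeasure (PJ J) := (hSNC J).1
  have hs : SigmaFinite mG := (GMG GLC).2.2.1
  have hU := (hUNL Γ F hΓ hF).1
  have hw1 : ∀ g : SL(2, ℝ), Measurable (wdE m t A l g) := fun g =>
    hwm.comp (g := Function.uncurry (wdE m t A l)) (f := fun h => (g, h)) measurable_prodMk_left
  have hw2 : Measurable fun g : SL(2, ℝ) => ∫⁻ h, wdE m t A l g h ∂mG :=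
    Measurable.lintegral_prod_right' (f := Function.uncurry (wdE m t A l)) hwm
  have hsum : ∀ g : SL(2, ℝ), Measurable fun h : SL(2, ℝ) => ∑' γ : Γ, wdE m t A l g ((γ : SL(2, ℝ)) * h) := by
    intro g
    refine Measurable.tsum fun γ => (hw1 g).comp ?_
    exact (continuous_const.mul continuous_id).measurable
  generalize hf0 : (fun (ξ : Fin J → ℝ) (g h : SL(2, ℝ)) => ‖perK Γ (wdK (VV χ ξ) κ t u A l) g h‖ₑ ^ 2) = f
  have hf1 : ∀ ξ g h, ‖perK Γ (wdK (VV χ ξ) κ t u A l) g h‖ₑ ^ 2 = f ξ g h := by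
    intro ξ g h
    rw [← hf0]
  have hfm : Measurable fun p : (Fin J → ℝ) × (SL(2, ℝ) × SL(2, ℝ)) => f p.1 p.2.1 p.2.2 := by
    rw [← hf0]
    exact hmeas.enorm.pow_const 2
  simp only [hf1] at hE ⊢
  rw [EHS_swap (PJ J) (mG.restrict (dG F)) f hfm]
  generalize wdE m t A l = W at *
  calc ∫⁻ g in dG F, ∫⁻ h in dG F, ∫⁻ ξ, f ξ g h ∂PJ J ∂mG ∂mG
      ≤ ∫⁻ g in dG F, ∫⁻ h in dG F, (K * Mx + ENNReal.ofReal ((9 / 10) ^ nc) * S) *
          ∑' γ : Γ, W g ((γ : SL(2, ℝ)) * h) ∂mG ∂mG :=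
        lintegral_mono fun g => lintegral_mono fun h => hE g h
    _ = ∫⁻ g in dG F, (K * Mx + ENNReal.ofReal ((9 / 10) ^ nc) * S) * ∫⁻ h, W g h ∂mG ∂mG := by
        refine lintegral_congr fun g => ?_
        rw [lintegral_const_mul _ (hsum g), hU _ (hw1 g)]
    _ = (K * Mx + ENNReal.ofReal ((9 / 10) ^ nc) * S) * ∫⁻ g in dG F, ∫⁻ h, W g h ∂mG ∂mG := by
        rw [lintegral_const_mul _ hw2]

end Pool.Agent.RPQ
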